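import Mathlib

namespace Pool.Agent.Results.MP_2c8f22_co.Counter
open Polynomial Finset

abbrev Arr (r₁ r₂ : ℕ) := ZMod r₁ × ZMod r₂ → ZMod 2

/-- `e` is the exponent of `f`. -/
def Expo (f : (ZMod 2)[X]) (e : ℕ) : Prop := f.eval 0 ≠ 0 ∧ IsLeast {d | 1 ≤ d ∧ f ∣ X ^ d - 1} e

/-- `s` satisfies the linear recurrence given by `f`. -/
def Gen (f : (ZMod 2)[X]) (s : ℕ → ZMod 2) : Prop := ∀ i, (f.sum fun k c => c * s (i + k)) = 0

/-- Foldings of the nonzero sequences generated by `f`. -/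
def Fold (r₁ r₂ : ℕ) (f : (ZMod 2)[X]) : Set (Arr r₁ r₂) :=
  {A | ∃ s, s ≠ 0 ∧ Gen f s ∧ ∀ i < r₁ * r₂, A (i, i) = s i}

def sh {r₁ r₂ : ℕ} (A : Arr r₁ r₂) (t : ZMod r₁ × ZMod r₂) : Arr r₁ r₂ := fun x => A (x + t)

def win {r₁ r₂ : ℕ} (n₁ n₂ : ℕ) (A : Arr r₁ r₂) (t : ZMod r₁ × ZMod r₂) (a : Fin n₁) (b : Fin n₂) :
    ZMod 2 := A (t.1 + (a : ℕ), t.2 + (b : ℕ))

/-- `C` contains exactly one array from each shift class of `S`. -/
def Reps {r₁ r₂ : ℕ} (S C : Set (Arr r₁ r₂)) : Prop :=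
  C ⊆ S ∧ ∀ B ∈ S, ∃! A, A ∈ C ∧ ∃ t, B = sh A t

def PRAC {r₁ r₂ : ℕ} (n₁ n₂ : ℕ) (C : Set (Arr r₁ r₂)) : Prop := r₁ * r₂ ∣ 2 ^ (n₁ * n₂) - 1 ∧
  (∀ W ≠ 0, ∃! q : Arr r₁ r₂ × ZMod r₁ × ZMod r₂, q.1 ∈ C ∧ win n₁ n₂ q.1 q.2 = W) ∧
  ∀ A ∈ C, ∀ B, (B ∈ C ∧ B ≠ A) ∨ (∃ t ≠ 0, B = sh A t) → ∃ D ∈ C, ∃ t, A + B = sh D t

noncomputable def P (m : ℕ) : (ZMod 2)[X] := ∑ k ∈ range m, if m.testBit k then X ^ k else 0

lemma cP (m k : ℕ) : (P m).coeff k = if m.testBit k then 1 else 0 := by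
  rw [P, finset_sum_coeff, sum_eq_single k]
  · split_ifs <;> simp
  · intro j _ h; split_ifs <;> simp [coeff_X_pow, h.symm]
  · intro h
    rw [Nat.testBit_eq_false_of_lt ((not_lt.1 (by simpa using h)).trans_lt Nat.lt_two_pow_self)]
    simp

lemma Px (a b : ℕ) : P (a ^^^ b) = P a + P b := by
  ext k; simp only [coeff_add, cP, Nat.testBit_xor]
  cases a.testBit k <;> cases b.testBit k <;> decide

lemma Ph (b : ℕ) : P b = X * P (b / 2) + if b % 2 = 1 then 1 else 0 := by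
  ext k
  rcases k with _ | k <;> split_ifs with h <;> simp [cP, Nat.testBit_succ, coeff_one, h]

lemma P0 : P 0 = 0 := by simp [P]
lemma P1 : P 1 = 1 := by simp [P]

lemma ex (d : ℕ) : ∀ g : (ZMod 2)[X], (∀ k, d ≤ k → g.coeff k = 0) → ∃ m < 2 ^ d, P m = g := by
  induction d with
  | zero => exact fun g h => ⟨0, by simp, by ext k; simp [P0, h]⟩
  | succ d ih =>
    intro g h
    obtain ⟨m, a, b⟩ := ih g.divX fun k hk => by rw [coeff_divX, h _ (by omega)]
    have l := (g.coeff 0).val_lt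
    refine ⟨2 * m + (g.coeff 0).val, by omega, ?_⟩
    rw [Ph, show (2 * m + (g.coeff 0).val) / 2 = m by omega, b]
    refine Eq.trans ?_ (X_mul_divX_add g)
    generalize g.coeff 0 = c
    obtain rfl | rfl : c = 0 ∨ c = 1 := by revert c; decide
    all_goals simp [ZMod.val_one]

def st (m a : ℕ) : ℕ := if 4096 ≤ 2 * a then 2 * a ^^^ m else 2 * a
def go (m : ℕ) : ℕ → ℕ → ℕ
  | 0, a => a
  | i + 1, a => if st m a = 0 then 0 else go m i (st m a)
def pw (m i : ℕ) : ℕ := go m i 1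
def mm (m a : ℕ) : ℕ → ℕ → ℕ
  | 0, _ => 0
  | k + 1, b => st m (mm m a k (b / 2)) ^^^ if b % 2 = 1 then a else 0
def iv (m a : ℕ) : ℕ → ℕ
  | 0 => 1
  | k + 1 => mm m (mm m a 12 (iv m a k)) 12 (mm m a 12 (iv m a k))
def comb : List ℕ → ℕ → ℕ
  | [], _ => 0
  | x :: v, c => (if c % 2 = 1 then x else 0) ^^^ comb v (c / 2)

lemma e1 (m a : ℕ) : AdjoinRoot.mk (P m) (P (st m a)) = AdjoinRoot.mk (P m) (X * P a) := by
  have : P (2 * a) = X * P a := by rw [Ph]; simp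
  unfold st; split_ifs <;> simp [Px, this]

lemma e2 (m i : ℕ) : P m ∣ X ^ i - P (pw m i) := by
  rw [← AdjoinRoot.mk_eq_mk, ← mul_one (X ^ i), ← P1, pw]
  generalize 1 = a
  induction i generalizing a with
  | zero => simp [go]
  | succ i ih =>
    rw [go, pow_succ, mul_assoc, map_mul, ← e1, ← map_mul]
    split_ifs with h
    · simp [h, P0]
    · exact ih _

lemma e4 (m a k : ℕ) : ∀ b, ∃ h, AdjoinRoot.mk (P m) (P (mm m a k b)) =
    AdjoinRoot.mk (P m) (h * P a) := by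
  induction k with
  | zero => exact fun b => ⟨0, by simp [mm, P0]⟩
  | succ k ih =>
    intro b
    obtain ⟨h, e⟩ := ih (b / 2)
    refine ⟨X * h + if b % 2 = 1 then 1 else 0, ?_⟩
    rw [mm, Px, map_add, e1, map_mul, e]
    split_ifs <;> simp [P0, add_mul, mul_assoc]

noncomputable def L (s : ℕ → ZMod 2) : (ZMod 2)[X] →ₗ[ZMod 2] ZMod 2 :=
  lsum fun k => LinearMap.toSpanSingleton _ _ (s k)

lemma l1 (s : ℕ → ZMod 2) (i : ℕ) : L s (X ^ i) = s i := by
  simp [L, X_pow_eq_monomial]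

lemma l2 (f : (ZMod 2)[X]) (s : ℕ → ZMod 2) : Gen f s ↔ ∀ i, L s (X ^ i * f) = 0 := by
  refine forall_congr' fun i => iff_of_eq (congrArg (· = 0) ?_)
  induction f using Polynomial.induction_on' with
  | add p q a b => rw [mul_add, map_add, ← a, ← b, sum_add_index] <;> simp [add_mul]
  | monomial n c =>
    rw [sum_monomial_index _ _ (by simp), ← C_mul_X_pow_eq_monomial, mul_left_comm, ← pow_add,
      ← smul_eq_C_mul, map_smul, l1, smul_eq_mul]

lemma l3 {f g : (ZMod 2)[X]} {s : ℕ → ZMod 2} (h : Gen f s) (d : f ∣ g) : L s g = 0 := by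
  obtain ⟨q, rfl⟩ := d
  induction q using Polynomial.induction_on' with
  | add p q a b => rw [mul_add, map_add, a, b, add_zero]
  | monomial n c =>
    rw [← C_mul_X_pow_eq_monomial, mul_left_comm, ← smul_eq_C_mul, map_smul, mul_comm,
      (l2 f s).1 h, smul_zero]

lemma l4 (s : ℕ → ZMod 2) (v : List ℕ) (h : ∀ x ∈ v, L s (P x) = 0) : ∀ c, L s (P (comb v c)) = 0 := by
  induction v with
  | nil => simp [comb, P0]
  | cons x v ih =>
    intro c
    rw [comb, Px, map_add, ih fun y hy => h y (by simp [hy])]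
    split_ifs <;> simp [P0, h]

lemma per {f : (ZMod 2)[X]} {s : ℕ → ZMod 2} (h : Gen f s) {e : ℕ} (d : f ∣ X ^ e - 1) (i : ℕ) :
    s i = s (i % e) := by
  have := l3 h ((d.trans (sub_one_dvd_pow_sub_one _ (i / e))).mul_left (X ^ (i % e)))
  rwa [mul_sub, ← pow_mul, ← pow_add, Nat.mod_add_div, mul_one, map_sub, l1, l1, sub_eq_zero] at this

def I (x : ZMod 5 × ZMod 117) : ℕ := (351 * x.1.val + 235 * x.2.val) % 585
lemma i1 : ∀ x, ((I x : ZMod 5), (I x : ZMod 117)) = x := by decide +kernel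
lemma i2 (i : ℕ) (h : i < 585) : I (i, i) = i := by simp only [I, ZMod.val_natCast]; omega
lemma i3 (i : ℕ) : ((i : ZMod 5), (i : ZMod 117)) =
    (((i % 585 : ℕ) : ZMod 5), ((i % 585 : ℕ) : ZMod 117)) := by
  simp only [Prod.mk.injEq, ZMod.natCast_eq_natCast_iff']; omega

def V (f : (ZMod 2)[X]) (A : Arr 5 117) : Prop := Gen f fun i => A (i, i)

lemma fo {f : (ZMod 2)[X]} (d : f ∣ X ^ 585 - 1) (A : Arr 5 117) :
    A ∈ Fold 5 117 f ↔ A ≠ 0 ∧ V f A := by
  constructor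
  · rintro ⟨s, a, b, c⟩
    obtain rfl : s = fun i : ℕ => A (i, i) := funext fun i => by
      rw [per b d, i3, c _ (Nat.mod_lt _ (by omega))]
    exact ⟨fun e => a (by subst e; rfl), b⟩
  · rintro ⟨a, b⟩
    exact ⟨_, fun e => a (funext fun x => by rw [← i1 x]; exact congrFun e _), b, fun _ _ => rfl⟩

lemma vs {f : (ZMod 2)[X]} {A : Arr 5 117} (h : V f A) (t) : V f (sh A t) := fun i => by
  rw [← i1 t, ← h (i + I t)]
  simp only [sh, Prod.mk_add_mk, Nat.cast_add, add_right_comm]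

lemma va {f : (ZMod 2)[X]} {A B : Arr 5 117} (h : V f A) (k : V f B) : V f (A + B) := fun i => by
  have := congrArg₂ (· + ·) (h i) (k i)
  simpa [Polynomial.sum, mul_add, sum_add_distrib] using this

lemma two (A B : Arr 5 117) (h : A + B = 0) : B = A := funext fun x =>
  (by decide : ∀ a b : ZMod 2, a + b = 0 → b = a) _ _ (congrFun h x)

abbrev OK (m : ℕ) (v T : List ℕ) : Prop := m.testBit 12 ∧ m < 2 ^ 13 ∧ m.testBit 0 ∧ pw m 585 = 1 ∧
  (∀ x < 45, ∀ y < 13, 13 * x + y ≠ 0 → pw m (13 * x + y) ≠ 1 ∧ pw m (13 * x + y) < 2 ^ 12) ∧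
  (∀ a < 128, a ≠ 0 → mm m a 12 (iv m a 11) = 1) ∧
  (∀ x ∈ v, ∃ a : Fin 3, ∃ b : Fin 4, x = pw m (I ((a : ℕ), (b : ℕ)))) ∧
  ∀ a < 64, ∀ b < 64, comb v (comb T (64 * a + b)) = 64 * a + b

def GG (f : (ZMod 2)[X]) : Prop := f ∣ X ^ 585 - 1 ∧ Irreducible f ∧
    f.natDegree = 3 * 4 ∧ Expo f (5 * 117) ∧ ∀ C, Reps (Fold 5 117 f) C → PRAC 3 4 C

lemma good {m : ℕ} {v T : List ℕ} (h : OK m v T) : GG (P m) := by
  obtain ⟨h1, h2, h3, h4, h5, h6, h7, h8⟩ := h
  replace h5 : ∀ t < 585, t ≠ 0 → pw m t ≠ 1 ∧ pw m t < 2 ^ 12 := fun t x => by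
    simpa only [Nat.div_add_mod] using h5 (t / 13) (by omega) (t % 13) (by omega)
  replace h8 : ∀ a < 2 ^ 12, comb v (comb T a) = a := fun t x => by
    simpa only [Nat.div_add_mod] using h8 (t / 64) (by omega) (t % 64) (by omega)
  have z : ∀ a d, a < 2 ^ d → ∀ k, d ≤ k → (P a).coeff k = 0 := fun a d x k y => by
    rw [cP, Nat.testBit_eq_false_of_lt (x.trans_le (by gcongr; omega))]; simp
  have c : (P m).coeff 12 = 1 := by simp [cP, h1]
  have dg : (P m).natDegree = 12 := natDegree_eq_of_le_of_coeff_ne_zero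
    (natDegree_le_iff_coeff_eq_zero.2 fun k hk => z m 13 h2 k hk) (by simp [c])
  have mo : (P m).Monic := by rw [Monic, leadingCoeff, dg, c]
  have d : P m ∣ X ^ 585 - 1 := by simpa [h4, P1] using e2 m 585
  have ir : Irreducible (P m) := by
    rw [mo.irreducible_iff_lt_natDegree_lt fun e => by simp [e] at dg]
    intro q hq l y
    rw [dg, mem_Ioc] at l
    obtain ⟨a, x, rfl⟩ := ex 7 q fun k hk => coeff_eq_zero_of_natDegree_lt (by omega)
    obtain ⟨g, e⟩ := e4 m a 12 (iv m a 11)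
    rw [h6 a x fun e => by simp [e, P0] at l, P1, AdjoinRoot.mk_eq_mk] at e
    have := natDegree_eq_zero_of_isUnit (isUnit_of_dvd_one
      ((dvd_sub_left (dvd_mul_left _ g)).1 (y.trans e)))
    omega
  have nd : ∀ t < 585, t ≠ 0 → ¬ P m ∣ X ^ t - 1 := fun t x y e => by
    have u := (h5 t x y).2
    have q : P m ∣ P (pw m t ^^^ 1) := by
      have := dvd_sub e (e2 m t)
      rwa [sub_sub_sub_cancel_left, CharTwo.sub_eq_add, ← P1, ← Px] at this
    have r := eq_zero_of_dvd_of_degree_lt q (by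
      rw [degree_eq_natDegree mo.ne_zero, dg]
      exact (degree_lt_iff_coeff_zero _ 12).2 (z _ 12 (Nat.xor_lt_two_pow u (by omega))))
    refine (h5 t x y).1 (Nat.xor_eq_zero_iff.1 (Nat.eq_of_testBit_eq fun k => ?_))
    have := cP (pw m t ^^^ 1) k
    rw [r] at this
    revert this
    cases (pw m t ^^^ 1).testBit k <;> simp
  have md : ∀ g, ∃ a < 2 ^ 12, P a = g %ₘ P m := fun g => ex 12 _ fun k hk =>
    coeff_eq_zero_of_degree_lt ((degree_modByMonic_lt g mo).trans_le (by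
      rw [degree_eq_natDegree mo.ne_zero, dg]; exact_mod_cast hk))
  have inj : ∀ A B, V (P m) A → V (P m) B → win 3 4 A 0 = win 3 4 B 0 → B = A := by
    intro A B a b e
    refine two _ _ (funext fun x => ?_)
    have w := va a b
    obtain ⟨k, u, r⟩ := md (X ^ I x)
    have t := l4 _ v (fun y hy => by
      obtain ⟨i, j, rfl⟩ := h7 y hy
      have := l3 w (e2 m (I ((i : ℕ), (j : ℕ))))
      rw [map_sub, l1, i1, sub_eq_zero] at this
      have q := congrFun (congrFun e i) j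
      simp only [win, Prod.fst_zero, Prod.snd_zero, zero_add] at q
      rw [← this, Pi.add_apply, q, CharTwo.add_self_eq_zero]) (comb T k)
    rw [h8 k u, r, modByMonic_eq_sub_mul_div, map_sub, l3 w (dvd_mul_right _ _), l1, i1,
      sub_zero] at t
    exact t
  have fr : ∀ A t, V (P m) A → A ≠ 0 → sh A t = A → t = 0 := by
    intro A t a b e
    by_contra n
    obtain ⟨p, q, r⟩ := ir.coprime_iff_not_dvd.2 (nd (I t) (Nat.mod_lt _ (by omega)) fun k => by
      rw [← i1 t, k] at n; exact n rfl)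
    have g : Gen (X ^ I t - 1) fun i => A (i, i) := (l2 _ _).2 fun i => by
      rw [mul_sub, ← pow_add, mul_one, map_sub, l1, l1, ← congrFun e (i, i), sh, ← i1 t, i2 (I t)
        (Nat.mod_lt _ (by omega))]
      simp
    refine b (funext fun x => ?_)
    have := l1 (fun i => A (i, i)) (I x)
    rw [← mul_one (X ^ I x), ← r, mul_add, map_add, l3 a ((dvd_mul_left _ _).mul_left _),
      l3 g ((dvd_mul_left _ _).mul_left _), i1, add_zero] at this
    exact this.symm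
  have sj : ∀ W, ∃ A, V (P m) A ∧ win 3 4 A 0 = W := by
    let s : (Fin 12 → ZMod 2) → ℕ → ZMod 2 := fun u i =>
      L (fun k => if h : k < 12 then u ⟨k, h⟩ else 0) (X ^ i %ₘ P m)
    have g : ∀ u, Gen (P m) (s u) := fun u => (l2 _ _).2 fun i => by
      have : L (s u) = L (fun k => if h : k < 12 then u ⟨k, h⟩ else 0) ∘ₗ modByMonicHom (P m) := by
        refine lhom_ext' fun n => LinearMap.ext_ring ?_
        simp [← X_pow_eq_monomial, l1, s]
      rw [this, LinearMap.comp_apply, modByMonicHom_apply,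
        (modByMonic_eq_zero_iff_dvd mo).2 (dvd_mul_left _ _), map_zero]
    have k : ∀ u (i : ℕ), s u (I (i, i)) = s u i := fun u i => by
      rw [i3, i2 _ (Nat.mod_lt _ (by omega)), ← per (g u) d]
    have w : ∀ u, V (P m) fun x => s u (I x) := fun u => by simp only [V, k, g]
    have : Function.Bijective fun u => win 3 4 (fun x => s u (I x) : Arr 5 117) 0 := by
      refine (Fintype.bijective_iff_injective_and_card _).2 ⟨fun u u' e => funext fun i => ?_,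
        by simp⟩
      have := congrFun (inj _ _ (w u) (w u') e) ((i : ℕ), (i : ℕ))
      simp only [k, s] at this
      rw [(modByMonic_eq_self_iff mo).2 (by
        rw [degree_eq_natDegree mo.ne_zero, dg, degree_X_pow]; exact_mod_cast i.2), l1, l1] at this
      simpa using this.symm
    exact fun W => (this.2 W).elim fun u e => ⟨_, w u, e⟩
  have ws : ∀ (A : Arr 5 117) t, win 3 4 (sh A t) 0 = win 3 4 A t := fun A t => by
    ext a b; simp [win, sh, add_comm, Prod.add_def]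
  refine ⟨d, ir, dg, ⟨by simp [← coeff_zero_eq_eval_zero, cP, h3], ⟨by omega, by norm_num [d]⟩, fun t x => ?_⟩,
    fun C ⟨c1, c2⟩ => ⟨by norm_num, fun W hW => ?_, fun A a B b => ?_⟩⟩
  · by_contra y
    exact nd t (by omega) (by have := x.1; omega) x.2
  · obtain ⟨B, b, rfl⟩ := sj W
    obtain ⟨A, ⟨a, t, rfl⟩, un⟩ := c2 B ((fo d B).2 ⟨fun e => hW (by subst e; rfl), b⟩)
    refine ⟨(A, t), ⟨a, (ws A t).symm⟩, ?_⟩
    rintro ⟨A', t'⟩ ⟨a', e⟩
    have e' := inj _ _ (vs ((fo d _).1 (c1 a')).2 t') b ((ws _ _).trans e)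
    obtain rfl := un A' ⟨a', t', e'⟩
    have := fr A' (t' - t) ((fo d _).1 (c1 a')).2 ((fo d _).1 (c1 a')).1 (funext fun x => by
      have := congrFun e' (x - t)
      simp only [sh, sub_add_cancel] at this ⊢
      exact (congrArg A' (by abel)).trans this.symm)
    rw [sub_eq_zero.1 this]
  · obtain ⟨a0, a1⟩ := (fo d _).1 (c1 a)
    have : B ≠ A ∧ V (P m) B := by
      rcases b with ⟨x, y⟩ | ⟨t, x, rfl⟩
      · exact ⟨y, ((fo d _).1 (c1 x)).2⟩
      · exact ⟨fun e => x (fr A t a1 a0 e), vs a1 t⟩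
    obtain ⟨D, ⟨x, y⟩, -⟩ := c2 _ ((fo d _).2 ⟨fun e => this.1 (two _ _ e), va a1 this.2⟩)
    exact ⟨D, x, y⟩

lemma ok1 : OK 5707 [1, 4082, 1828, 3983, 3628, 2, 2479, 3656, 2077, 2579, 4, 1301]
    [1, 32, 1024, 450, 345, 4030, 2862, 3019, 1100, 1762, 2324, 1434] := by decide +kernel

lemma ok2 : OK 7093 [1, 4013, 1058, 251, 3713, 2, 1263, 2116, 2142, 1719, 4, 2526]
    [1, 32, 1024, 2631, 3047, 3979, 1756, 2270, 478, 1340, 4015, 604] := by decide +kernel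

def Q : List (ℕ × ℕ) := [(0, 0), (0, 2), (0, 3), (0, 4), (1, 0), (1, 7), (2, 0), (2, 3), (2, 6)]

lemma rel (m : ℕ) (l : List (ℕ × ℕ)) : P m ∣ (l.map fun x => X ^ I (x.1, x.2)).sum -
    P (l.foldr (fun x r => pw m (I (x.1, x.2)) ^^^ r) 0) := by
  induction l with
  | nil => simp [P0]
  | cons x l ih =>
    rw [List.map_cons, List.sum_cons, List.foldr_cons, Px, add_sub_add_comm]
    exact dvd_add (e2 _ _) ih

lemma ne : P 5707 ≠ P 7093 := fun e => by
  have := (cP 5707 1).symm.trans ((congrArg (coeff · 1) e).trans (cP 7093 1))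
  revert this; decide

def G2 (f : (ZMod 2)[X]) : Prop := f ∣ (Q.map fun x => X ^ I (x.1, x.2)).sum

lemma r1 : G2 (P 5707) := by
  have := rel 5707 Q
  rwa [show List.foldr _ _ _ = 0 by decide +kernel, P0, sub_zero] at this

lemma r2 : G2 (P 7093) := by
  have := rel 7093 Q
  rwa [show List.foldr _ _ _ = 0 by decide +kernel, P0, sub_zero] at this

lemma bad {f : (ZMod 2)[X]} (d : f ∣ X ^ 585 - 1) (r : G2 f)
    (C) (c : C ⊆ Fold 5 117 f) : ¬ PRAC 3 8 C := by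
  rintro ⟨-, w, -⟩
  obtain ⟨⟨A, t⟩, ⟨a, e⟩, -⟩ := w (fun i j => if i = 0 ∧ j = 0 then 1 else 0) fun e => by
    simpa using congrFun (congrFun e 0) 0
  have := l3 (vs ((fo d A).1 (c a)).2 t) r
  have k : ∀ i j : ℕ, i < 3 → j < 8 → sh A t (i, j) = if i = 0 ∧ j = 0 then 1 else 0 :=
    fun i j x y => by
      have := congrFun (congrFun e ⟨i, x⟩) ⟨j, y⟩
      simpa [win, sh, add_comm, Prod.add_def, Fin.ext_iff] using this
  simp only [Q, List.map_cons, List.map_nil, List.sum_cons, List.sum_nil, map_add, l1, i1,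
    map_zero] at this
  simp (disch := omega) only [k] at this
  revert this; decide

theorem result : ¬ ∀ (r₁ r₂ n₁ n₂ : ℕ) (F : Finset (ZMod 2)[X]), r₁.Coprime r₂ → n₁ < r₁ →
    r₁ < 2 * n₁ → (∀ f ∈ F, Irreducible f ∧ f.natDegree = n₁ * n₂ ∧ Expo f (r₁ * r₂) ∧
      ∀ C, Reps (Fold r₁ r₂ f) C → PRAC n₁ n₂ C) → ∀ G ⊆ F, G.Nonempty →
    ∃ C, Reps (Fold r₁ r₂ (∏ f ∈ G, f)) C ∧ PRAC n₁ (G.card * n₂) C := by
  intro h
  obtain ⟨f, g, n, r1, r2, ⟨d1, g1⟩, d2, g2⟩ : ∃ f g : (ZMod 2)[X], f ≠ g ∧ G2 f ∧ G2 g ∧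
      GG f ∧ GG g := ⟨_, _, ne, r1, r2, good ok1, good ok2⟩
  have co : IsCoprime f g := g1.1.coprime_iff_not_dvd.2 fun e => n <| by
    obtain ⟨u, hu⟩ := g1.1.associated_of_dvd g2.1 e
    obtain ⟨c, x, y⟩ := Polynomial.isUnit_iff.1 u.isUnit
    rw [← hu, ← y, (by decide : ∀ c : ZMod 2, IsUnit c → c = 1) c x, map_one, mul_one]
  obtain ⟨C, ⟨c, -⟩, w⟩ := h 5 117 3 4 {f, g} (by norm_num) (by omega) (by omega)
    (fun f hf => (mem_insert.1 hf).elim (fun e => by rw [e]; exact g1)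
      fun e => by rw [mem_singleton.1 e]; exact g2) _ subset_rfl (by simp)
  rw [prod_pair n] at c
  rw [card_pair n] at w
  exact bad (co.mul_dvd d1 d2) (co.mul_dvd r1 r2) C c w

end Pool.Agent.Results.MP_2c8f22_co.Counter
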